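import Pool.Agent.WAQ.StmtsL
import Pool.Agent.WAQ.Alg

/-!
# Row RAM of squad WAQ (MP_ff4683_nt): ramified twists (port of Helper54_WAP/RAM)
-/

set_option autoImplicit false

namespace Pool.Agent.WAQ.H49

open Pool.Agent.WAQ Pool.Agent.WAQ.G
open Classical

variable [Par]

section
variable {F : Type} [NormedField F] {ϖ : ℤ}

theorem ram_add_one (hL : IsLoc F ϖ) {x y : F} (hx : ‖x‖ < 1) (hy : ‖y‖ = 1) :
    ‖x + y‖ = 1 := by
  apply le_antisymm
  · exact (hL.ultra x y).trans (max_le hx.le hy.le)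
  · have h1 := hL.ultra (x + y) (-x)
    rw [norm_neg] at h1
    have h2 : x + y + -x = y := by ring
    rw [h2, hy] at h1
    rcases le_max_iff.1 h1 with h3 | h3
    · exact h3
    · exact absurd h3 (not_le.2 hx)

theorem ram_big {d : F} {P : Pt d} (h : 1 < ‖xn P‖) : Big 1 P := Or.inr h

theorem ram_gt {a b : F} (ha : ‖a‖ = 1) (hb : ‖b‖ < 1) (hb0 : b ≠ 0) : 1 < ‖a / b‖ := by
  rw [norm_div, ha]
  exact (one_lt_div (norm_pos_iff.2 hb0)).2 hb

end

theorem ram : RamStmt := by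
  intro F _ ϖ hL d hd P
  haveI hGd : Gd F := hL.gd
  have hq1 : qn F ϖ < 1 := (hL.lt_one ϖ).2 (dvd_refl ϖ)
  have hq0 : 0 < qn F ϖ := hL.uni
  have hd0 : d ≠ 0 := by
    rw [← norm_pos_iff, hd]; exact hq0
  have h2 : (2 : F) ≠ 0 := hL.two_ne
  have na := hL.norm_ea
  have nb := hL.norm_eb
  have nab := hL.norm_eab
  have nba : ‖eb F - ea F‖ = 1 := by rw [norm_sub_rev]; exact nab
  have hneg : ∀ e : F, cub e = 0 → P - tor d e = P + tor d e := by
    intro e he
    rw [sub_eq_add_neg, (isP_tor h2 hd0 he).neg_self]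
  by_cases hP0 : P = 0
  · exact ⟨0, Or.inl rfl, Or.inl (by rw [hP0, sub_zero])⟩
  have hP := isP_self hd0 hP0
  set x := xn P with hx
  set y := yn P with hy
  have heq := hP.eqn hd0
  have y_zero : cub x = 0 → y = 0 := by
    intro h
    rw [h] at heq
    rcases mul_eq_zero.1 heq with h3 | h3
    · exact absurd h3 hd0
    · exact pow_eq_zero_iff (two_ne_zero)|>.1 h3
  have tor_case : ∀ e : F, cub e = 0 → x = e → Big 1 (P + tor d e) := by
    intro e he hxe
    left
    have hc : cub x = 0 := by rw [hxe]; exact he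
    have hy0 := y_zero hc
    have h3 : IsP P e 0 := hP.congr hxe hy0
    have h4 : P = tor d e := h3.ext (isP_tor h2 hd0 he)
    rw [h4]
    exact tor_add_self h2 hd0 he
  by_cases hbig : 1 < ‖x‖
  · exact ⟨0, Or.inl rfl, by rw [sub_zero]; exact ram_big hbig⟩
  push Not at hbig
  by_cases hx1 : ‖x‖ < 1
  · refine ⟨tor d 0, Or.inr (Or.inl rfl), ?_⟩
    rw [hneg 0 cub_zero]
    by_cases h0 : x = 0
    · exact tor_case 0 cub_zero h0
    · apply ram_big
      rw [(hP.add_tor0 h2 hd0 h0).xn_eq hd0]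
      exact ram_gt (by rw [norm_mul, na, nb, one_mul]) hx1 h0
  have hx1' : ‖x‖ = 1 := le_antisymm hbig (not_lt.1 hx1)
  by_cases ha : ‖x - ea F‖ < 1
  · refine ⟨tor d (ea F), Or.inr (Or.inr (Or.inl rfl)), ?_⟩
    rw [hneg _ cub_ea]
    by_cases h0 : x = ea F
    · exact tor_case _ cub_ea h0
    · apply ram_big
      rw [(hP.add_tor1 h2 hd0 h0).xn_eq hd0]
      refine ram_gt ?_ ha (sub_ne_zero.2 h0)
      have h5 : x - eb F = (x - ea F) + (ea F - eb F) := by ring
      rw [norm_mul, na, one_mul, h5]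
      exact ram_add_one hL ha nab
  by_cases hb : ‖x - eb F‖ < 1
  · refine ⟨tor d (eb F), Or.inr (Or.inr (Or.inr rfl)), ?_⟩
    rw [hneg _ cub_eb]
    by_cases h0 : x = eb F
    · exact tor_case _ cub_eb h0
    · apply ram_big
      rw [(hP.add_torm h2 hd0 h0).xn_eq hd0]
      refine ram_gt ?_ hb (sub_ne_zero.2 h0)
      have h5 : x - ea F = (x - eb F) + (eb F - ea F) := by ring
      rw [norm_mul, nb, one_mul, h5]
      exact ram_add_one hL hb nba
  exfalso
  have ha' : ‖x - ea F‖ = 1 := by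
    apply le_antisymm _ (not_lt.1 ha)
    have := hL.ultra x (-ea F)
    rw [norm_neg, na, hx1', max_self, ← sub_eq_add_neg] at this
    exact this
  have hb' : ‖x - eb F‖ = 1 := by
    apply le_antisymm _ (not_lt.1 hb)
    have := hL.ultra x (-eb F)
    rw [norm_neg, nb, hx1', max_self, ← sub_eq_add_neg] at this
    exact this
  have hn : ‖d‖ * ‖y‖ ^ 2 = 1 := by
    rw [← norm_pow, ← norm_mul, heq]
    unfold cub
    rw [norm_mul, norm_mul, hx1', ha', hb']
    norm_num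
  have hy0 : y ≠ 0 := by
    intro h
    rw [h, norm_zero] at hn
    norm_num at hn
  obtain ⟨n, hn'⟩ := hL.val y hy0
  rw [hd, hn'] at hn
  have hq0' : (0 : ℝ) < ‖am F ϖ‖ := hq0
  have h5 : ‖am F ϖ‖ ^ (1 + 2 * n) = ‖am F ϖ‖ ^ (0 : ℤ) := by
    rw [zpow_add₀ hq0'.ne', zpow_one, zpow_zero, mul_comm 2 n, zpow_mul]
    exact hn
  have h6 := zpow_right_injective₀ hq0' hq1.ne h5
  omega

end Pool.Agent.WAQ.H49
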