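import Pool.Agent.WAQ.StmtsR
import Pool.Agent.WAQ.StmtsT

/-!
# Row RSM of squad WAQ (MP_ff4683_nt): an infinite subgroup contains small points
-/

set_option autoImplicit false

namespace Pool.Agent.WAQ.H49

open Pool.Agent.WAQ Pool.Agent.WAQ.R Pool.Agent.WAQ.G
open Filter Topology

attribute [local instance 10000] Pool.Agent.WAQ.R.decR

variable [Par]

theorem rsm_ext {d : ℝ} {P Q : Pt d} (hP : P ≠ 0) (hQ : Q ≠ 0) (hx : cX P = cX Q)
    (hy : cY P = cY Q) : P = Q := by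
  rcases P with _ | ⟨X, Y, h⟩
  · exact absurd rfl hP
  rcases Q with _ | ⟨X', Y', h'⟩
  · exact absurd rfl hQ
  have h1 : X = X' := hx
  have h2 : Y = Y' := hy
  subst h1 h2
  rfl

theorem rsm_eqn {d : ℝ} {P : Pt d} (hP : P ≠ 0) :
    cY P ^ 2 = cX P * (cX P - d * ea ℝ) * (cX P - d * eb ℝ) := by
  rcases P with _ | ⟨X, Y, h⟩
  · exact absurd rfl hP
  · exact ((W_nonsing_iff d _ _).1 h).1

theorem rsm_cY_zero {d : ℝ} : cY (0 : Pt d) = 0 := rfl

theorem rsm_big_neg {d N : ℝ} {P : Pt d} (h : Big N P) : Big N (-P) := by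
  rcases h with h | h
  · exact Or.inl (by rw [h, neg_zero])
  · refine Or.inr ?_
    have : cX (-P) / d = cX P / d := xn_neg P
    rw [this]
    exact h

/-- the points with `cY = 0` are finitely many -/
theorem rsm_fin (d : ℝ) : {P : Pt d | cY P = 0}.Finite := by
  have h : {P : Pt d | cY P = 0} ⊆ {0} ∪ ({P : Pt d | P ≠ 0 ∧ cY P = 0}) := by
    intro P hP
    by_cases h0 : P = 0
    · exact Or.inl h0
    · exact Or.inr ⟨h0, hP⟩
  refine Set.Finite.subset ((Set.finite_singleton _).union ?_) h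
  refine Set.Finite.of_finite_image (f := fun P : Pt d => cX P) ?_ ?_
  · refine Set.Finite.subset (Set.toFinite ({0, d * ea ℝ, d * eb ℝ} : Set ℝ)) ?_
    rintro _ ⟨P, ⟨h0, hY⟩, rfl⟩
    have h1 := rsm_eqn h0
    rw [hY] at h1
    have h2 : cX P * (cX P - d * ea ℝ) * (cX P - d * eb ℝ) = 0 := by
      rw [← h1]; ring
    rcases mul_eq_zero.1 h2 with h3 | h3
    · rcases mul_eq_zero.1 h3 with h4 | h4
      · exact Or.inl h4
      · exact Or.inr (Or.inl (sub_eq_zero.1 h4))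
    · exact Or.inr (Or.inr (sub_eq_zero.1 h3))
  · rintro P ⟨h0, hY⟩ Q ⟨h0', hY'⟩ hPQ
    exact rsm_ext h0 h0' hPQ (hY.trans hY'.symm)

/-- duplication makes points with small `cY` large -/
theorem rsm_dbl {d : ℝ} (hd : d ≠ 0) {P : Pt d} (hY : cY P ≠ 0) (N : ℝ)
    (h : 4 * |N| * |d| * (cY P / d ^ 2) ^ 2 < ((cX P / d) ^ 2 - ea ℝ * eb ℝ) ^ 2) :
    P + P ≠ 0 ∧ Big N (P + P) := by
  have h0 : P ≠ 0 := by
    rintro rfl
    exact hY rsm_cY_zero
  have hI := isP_self hd h0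
  have hy : yn P ≠ 0 := div_ne_zero hY (pow_ne_zero 2 hd)
  have hD := hI.dbl two_ne_zero hd hy
  refine ⟨hD.ne_zero, Or.inr ?_⟩
  have h1 : cX (P + P) / d = (xn P ^ 2 - ea ℝ * eb ℝ) ^ 2 / (4 * cub (xn P)) := hD.xn_eq hd
  have h2 : d * yn P ^ 2 = cub (xn P) := hI.eqn hd
  have hdp : 0 < |d| := abs_pos.2 hd
  have hyp : 0 < yn P ^ 2 := by positivity
  rw [h1, ← h2, Real.norm_eq_abs, abs_div, abs_mul, abs_mul]
  have e1 : |(4 : ℝ)| = 4 := abs_of_pos (by norm_num)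
  have e2 : |yn P ^ 2| = yn P ^ 2 := abs_of_pos hyp
  have e3 : |(xn P ^ 2 - ea ℝ * eb ℝ) ^ 2| = (xn P ^ 2 - ea ℝ * eb ℝ) ^ 2 :=
    abs_of_nonneg (sq_nonneg _)
  rw [e1, e2, e3, lt_div_iff₀ (by positivity)]
  have h3 : N ≤ |N| := le_abs_self N
  have h4 : 4 * |N| * |d| * yn P ^ 2 < (xn P ^ 2 - ea ℝ * eb ℝ) ^ 2 := h
  have h5 : N * (4 * (|d| * yn P ^ 2)) ≤ |N| * (4 * (|d| * yn P ^ 2)) :=
    mul_le_mul_of_nonneg_right h3 (by positivity)
  linarith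

/-- the core of the row -/
theorem rsm_core {d : ℝ} (hd : d ≠ 0)
    (hadn : ∀ N : ℝ, ∃ N' : ℝ, ∀ p q : Pt d, Big N' p → Big N' q → Big N (p + q))
    (hdif : ∀ P0 : Pt d, cY P0 ≠ 0 → ∀ N : ℝ, ∃ ε : ℝ, 0 < ε ∧ ∀ P : Pt d, P ≠ 0 →
      ‖cX P - cX P0‖ < ε → ‖cY P - cY P0‖ < ε → Big N (P - P0))
    (S : Set (Pt d)) (hS : S.Infinite) (hsub : ∀ P ∈ S, ∀ Q ∈ S, P - Q ∈ S) (N : ℝ) :
    ∃ P ∈ S, P ≠ 0 ∧ Big N P := by
  by_contra hcon
  push Not at hcon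
  -- the points with `cY ≠ 0`
  set S' : Set (Pt d) := S \ {P : Pt d | cY P = 0} with hS'
  have hS'i : S'.Infinite := hS.diff (rsm_fin d)
  have hS'0 : ∀ P ∈ S', P ≠ 0 := by
    rintro P hP rfl
    exact hP.2 rsm_cY_zero
  have hbd : ∀ P ∈ S', |cX P| ≤ |N| * |d| := by
    intro P hP
    have h1 := hcon P hP.1 (hS'0 P hP)
    unfold Big at h1
    push Not at h1
    have h2 := h1.2
    rw [norm_div, Real.norm_eq_abs, Real.norm_eq_abs, div_le_iff₀ (abs_pos.2 hd)] at h2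
    exact h2.trans (mul_le_mul_of_nonneg_right (le_abs_self N) (abs_nonneg d))
  set φ : Pt d → ℝ × ℝ := fun P => (cX P, cY P) with hφ
  have hinj : Set.InjOn φ S' := by
    intro P hP Q hQ h
    have h1 : cX P = cX Q := congrArg Prod.fst h
    have h2 : cY P = cY Q := congrArg Prod.snd h
    exact rsm_ext (hS'0 P hP) (hS'0 Q hQ) h1 h2
  have hφi : (φ '' S').Infinite := hS'i.image hinj
  set R1 : ℝ := |N| * |d| with hR1
  set B : ℝ := R1 * (R1 + |d * ea ℝ|) * (R1 + |d * eb ℝ|) with hB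
  have hR10 : 0 ≤ R1 := by positivity
  have hB0 : 0 ≤ B := by positivity
  have hK : IsCompact (Set.Icc (-R1) R1 ×ˢ Set.Icc (-(B + 1)) (B + 1)) :=
    isCompact_Icc.prod isCompact_Icc
  have hsubK : φ '' S' ⊆ Set.Icc (-R1) R1 ×ˢ Set.Icc (-(B + 1)) (B + 1) := by
    rintro _ ⟨P, hP, rfl⟩
    have h1 := hbd P hP
    have h2 := rsm_eqn (hS'0 P hP)
    have h3 : cY P ^ 2 ≤ B := by
      rw [h2]
      refine (le_abs_self _).trans ?_
      rw [abs_mul, abs_mul]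
      have h4 : |cX P - d * ea ℝ| ≤ R1 + |d * ea ℝ| := (abs_sub _ _).trans (by linarith)
      have h5 : |cX P - d * eb ℝ| ≤ R1 + |d * eb ℝ| := (abs_sub _ _).trans (by linarith)
      exact mul_le_mul (mul_le_mul h1 h4 (abs_nonneg _) hR10) h5 (abs_nonneg _) (by positivity)
    refine ⟨abs_le.1 h1, abs_le.1 ?_⟩
    exact abs_le_of_sq_le_sq (by nlinarith) (by linarith)
  obtain ⟨x, hxK, hacc⟩ := hφi.exists_accPt_of_subset_isCompact hK hsubK
  -- points near `x`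
  have hnear : ∀ U ∈ 𝓝 x, ∃ P ∈ S', φ P ∈ U ∧ φ P ≠ x := by
    intro U hU
    obtain ⟨y, ⟨hyU, P, hP, rfl⟩, hne⟩ := accPt_iff_nhds.1 hacc U hU
    exact ⟨P, hP, hyU, hne⟩
  -- the equation for `x`
  have hcl : x.2 ^ 2 = x.1 * (x.1 - d * ea ℝ) * (x.1 - d * eb ℝ) := by
    by_contra hne
    have hopen : IsOpen {y : ℝ × ℝ | y.2 ^ 2 ≠ y.1 * (y.1 - d * ea ℝ) * (y.1 - d * eb ℝ)} := by
      refine isOpen_ne_fun ?_ ?_ <;> fun_prop
    obtain ⟨P, hP, hPU, -⟩ := hnear _ (hopen.mem_nhds hne)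
    exact hPU (rsm_eqn (hS'0 P hP))
  by_cases hY : x.2 = 0
  · -- doubling
    rw [hY] at hcl
    have hroot : (x.1 / d) ^ 2 - ea ℝ * eb ℝ ≠ 0 := by
      have ha := ea_ne ℝ
      have hb := eb_ne ℝ
      have hab := eab_ne ℝ
      have hba := eba_ne ℝ
      have h2 : x.1 * (x.1 - d * ea ℝ) * (x.1 - d * eb ℝ) = 0 := by
        rw [← hcl]; ring
      rcases mul_eq_zero.1 h2 with h3 | h3
      · rcases mul_eq_zero.1 h3 with h4 | h4
        · rw [h4]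
          intro h5
          apply mul_ne_zero ha hb
          have : (0 / d) ^ 2 = (0 : ℝ) := by rw [zero_div]; norm_num
          rw [this] at h5
          linarith
        · have h5 : x.1 = d * ea ℝ := sub_eq_zero.1 h4
          rw [h5, mul_div_cancel_left₀ _ hd]
          have h6 : ea ℝ ^ 2 - ea ℝ * eb ℝ = ea ℝ * (ea ℝ - eb ℝ) := by ring
          rw [h6]
          exact mul_ne_zero ha hab
      · have h5 : x.1 = d * eb ℝ := sub_eq_zero.1 h3
        rw [h5, mul_div_cancel_left₀ _ hd]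
        have h6 : eb ℝ ^ 2 - ea ℝ * eb ℝ = eb ℝ * (eb ℝ - ea ℝ) := by ring
        rw [h6]
        exact mul_ne_zero hb hba
    have hopen : IsOpen {y : ℝ × ℝ | 4 * |N| * |d| * (y.2 / d ^ 2) ^ 2 <
        ((y.1 / d) ^ 2 - ea ℝ * eb ℝ) ^ 2} := by
      refine isOpen_lt ?_ ?_ <;> fun_prop
    have hmem : x ∈ {y : ℝ × ℝ | 4 * |N| * |d| * (y.2 / d ^ 2) ^ 2 <
        ((y.1 / d) ^ 2 - ea ℝ * eb ℝ) ^ 2} := by
      show 4 * |N| * |d| * (x.2 / d ^ 2) ^ 2 < ((x.1 / d) ^ 2 - ea ℝ * eb ℝ) ^ 2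
      rw [hY, zero_div]
      have : 0 < ((x.1 / d) ^ 2 - ea ℝ * eb ℝ) ^ 2 := by positivity
      simpa using this
    obtain ⟨P, hP, hPU, -⟩ := hnear _ (hopen.mem_nhds hmem)
    obtain ⟨h1, h2⟩ := rsm_dbl hd (hP.2) N hPU
    have h3 : P + P ∈ S := by
      have h4 := hsub P hP.1 P hP.1
      rw [sub_self] at h4
      have h5 := hsub 0 h4 P hP.1
      have h6 := hsub P hP.1 _ h5
      have h7 : P - (0 - P) = P + P := by abel
      rwa [h7] at h6
    exact hcon _ h3 h1 h2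
  · -- the limit is a point
    have hns : (W d).Nonsingular x.1 x.2 := (W_nonsingular d x.1 x.2 two_ne_zero hd).2 hcl
    set P0 : Pt d := WeierstrassCurve.Affine.Point.some x.1 x.2 hns with hP0
    have hX0 : cX P0 = x.1 := rfl
    have hY0 : cY P0 = x.2 := rfl
    obtain ⟨N', hN'⟩ := hadn N
    obtain ⟨ε, hε, hclose⟩ := hdif P0 (by rw [hY0]; exact hY) N'
    have hball : Metric.ball x ε ∈ 𝓝 x := Metric.ball_mem_nhds x hε
    have hbig : ∀ P ∈ S', φ P ∈ Metric.ball x ε → Big N' (P - P0) := by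
      intro P hP hPU
      have h1 := Metric.mem_ball.1 hPU
      rw [Prod.dist_eq] at h1
      have h2 : dist (cX P) x.1 < ε := lt_of_le_of_lt (le_max_left _ _) h1
      have h3 : dist (cY P) x.2 < ε := lt_of_le_of_lt (le_max_right _ _) h1
      rw [Real.dist_eq] at h2 h3
      exact hclose P (hS'0 P hP) h2 h3
    obtain ⟨P, hP, hPU, hPx⟩ := hnear _ hball
    have hball2 : Metric.ball x ε ∩ {y | y ≠ φ P} ∈ 𝓝 x :=
      Filter.inter_mem hball (isOpen_ne.mem_nhds (Ne.symm hPx))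
    obtain ⟨Q, hQ, ⟨hQU, hQP⟩, -⟩ := hnear _ hball2
    have h1 := hbig P hP hPU
    have h2 := rsm_big_neg (hbig Q hQ hQU)
    have h3 := hN' _ _ h1 h2
    have h4 : P - P0 + -(Q - P0) = P - Q := by abel
    rw [h4] at h3
    refine hcon _ (hsub P hP.1 Q hQ.1) ?_ h3
    intro h5
    apply hQP
    rw [sub_eq_zero.1 h5]

/-- Row RSM. -/
theorem rsm (adn : AdnStmt) (dif : DifStmt) (hG : GoodF ℝ) : RsmStmt := by
  intro d hd S hS hsub N
  exact rsm_core hd (adn ℝ hG d hd) (dif ℝ hG d hd) S hS hsub N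

end Pool.Agent.WAQ.H49
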